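import Mathlib
import Pool.Agent.Helper72.ELRBasic
import Pool.Agent.Helper69.LB.Defs
import Pool.Agent.Helper72.UD.Done
import Pool.Agent.Helper75.UD.NumFin
import Pool.Agent.Helper75.UD.NumQ

/-!
# Unit ball graphs have no efficient local representation

See `Pool.Agent.Helper72.ELRBasic` for `HasELR` and `UnitBall`, and `Pool.Agent.Helper69.LB.Defs`
for `HasLabels`.
-/

namespace Pool.Agent.Results.MP_1243c9_co.NoEfficientLabels

open Filter Pool.Agent.Helper69.LB Pool.Agent.Helper72.ELR

/-- For every `d ≥ 2` the class of the `d`-dimensional unit ball graphs has no efficient local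
representation (labels of `O(log n)` bits); it does not even have adjacency labels of `f n` bits if
`f n ≤ (log n / log log n) ^ (3 / 2) / 1000` for all large `n`. -/
theorem result :
    (∀ d : ℕ, 2 ≤ d → ¬ HasELR (UnitBall d)) ∧
    (∀ d : ℕ, 2 ≤ d → ∀ f : ℕ → ℝ,
      (∀ᶠ n : ℕ in atTop,
        f n ≤ 1 / 1000 * (Real.log n / Real.log (Real.log n)) ^ (3 / 2 : ℝ)) →
      ¬ HasLabels (UnitBall d) f) :=
  ⟨Pool.Agent.Helper72.UD.not_hasELR_unitBall,
    fun d hd _ hf => Pool.Agent.Helper75.UD.final_quant' Pool.Agent.Helper72.UD.coreStmt hf d hd⟩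

end Pool.Agent.Results.MP_1243c9_co.NoEfficientLabels
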