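import Mathlib
import Pool.Agent.Helper72.ELRSemialg
import Pool.Agent.Helper69.LB.Defs
import Pool.Agent.Helper69.LB.Rank
import Pool.Agent.Helper69.LB.Final

/-!
# Adjacency labels of semialgebraic graphs below the square root

See `Pool.Agent.Helper69.LB.Defs` for `HasLabels`, `Pool.Agent.Helper69.LB.Rank` for `RankLE` and
`Pool.Agent.Helper72.ELRSemialg` for `SemialgebraicGraph`.
-/

namespace Pool.Agent.Results.MP_1243c9_co.SemialgebraicLabels

open Pool.Agent.Helper69.LB Pool.Agent.Helper72.ELR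

/-- Every class of semialgebraic graphs of bounded description has adjacency labels of
`O(n ^ (1 / 2 - ε))` bits for some `ε > 0`. If the rank of the polynomials is at most `D ≥ 2`, the
labels have `O(n ^ ((D - 1) / (2 D - 1)) (log (n + 1)) ^ (D + 1))` bits. -/
theorem result {k m : ℕ} (p : Fin m → MvPolynomial (Fin k ⊕ Fin k) ℝ)
    (Φ : (Fin m → Prop) → Prop) :
    (∃ ε : ℝ, 0 < ε ∧ ∃ C : ℝ, HasLabels (SemialgebraicGraph p Φ)
      (fun n => C * (n : ℝ) ^ (1 / 2 - ε))) ∧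
    ∀ D : ℕ, 2 ≤ D → (∀ i, RankLE (p i) D) → ∃ C : ℝ, HasLabels (SemialgebraicGraph p Φ)
      (fun n => C * (n : ℝ) ^ (((D : ℝ) - 1) / (2 * D - 1)) *
        (Real.log (n + 1)) ^ (D + 1)) := by
  refine ⟨?_, fun D hD hp => ?_⟩
  · obtain ⟨ε, C, hε, -, h⟩ := labels_semialg p Φ
    exact ⟨ε, hε, C, h⟩
  · obtain ⟨C, -, h⟩ := labels_rank p Φ D hD hp
    exact ⟨C, h⟩

end Pool.Agent.Results.MP_1243c9_co.SemialgebraicLabels
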