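import Mathlib
import Pool.Agent.Helper72.ELRBasic
import Pool.Agent.Helper72.ELRCurves
import Pool.Agent.Helper72.ELRRational

/-!
# Unit ball graphs with centres on a locally finite family of tame curves

See `Pool.Agent.Helper72.ELRBasic` for `HasELR` and `Pool.Agent.Helper72.ELRCurves` for `Tame`,
`IsUnionOfIntervals` and `CurveUnitBall`.
-/

namespace Pool.Agent.Results.MP_1243c9_co.TameCurves

open Pool.Agent.Helper72.ELR Polynomial

/-- For all `d`, `r`, `k` the class of the unit ball graphs in `ℝ^d` whose centres lie on
`r`-tame curves such that every unit ball about a centre meets centres of at most `k` of the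
curves has an efficient local representation; and rational curves of degree at most `D` without
poles are `(4 D + 2)`-tame. -/
theorem result :
    (∀ d r k : ℕ, HasELR (CurveUnitBall d r k)) ∧
    ∀ (d D : ℕ) (P : Fin d → ℝ[X]) (q : ℝ[X]), (∀ i, (P i).natDegree ≤ D) → q.natDegree ≤ D →
      (∀ t, q.eval t ≠ 0) →
      Tame (4 * D + 2) (fun t => (WithLp.toLp 2 (fun i => (P i).eval t / q.eval t) :
        EuclideanSpace ℝ (Fin d))) :=
  ⟨curveUnitBall_hasELR, fun _ D P q hP hq hq0 => rational_tame D P q hP hq hq0⟩

end Pool.Agent.Results.MP_1243c9_co.TameCurves
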