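import Mathlib
import Pool.Agent.Helper72.ELRBasic
import Pool.Agent.Helper69.LB.Defs
import Pool.Agent.Helper69.LB.FinalA

/-!
# Adjacency labels of unit ball graphs below the square root

See `Pool.Agent.Helper69.LB.Defs` for `HasLabels` and `Pool.Agent.Helper72.ELRBasic` for
`UnitBall`.
-/

namespace Pool.Agent.Results.MP_1243c9_co.UnitBallLabels

open Pool.Agent.Helper69.LB Pool.Agent.Helper72.ELR

/-- For every `d ≥ 2` the class of the `d`-dimensional unit ball graphs has adjacency labels of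
`O(n ^ ((d - 1) / (2 d - 1)) (log (n + 1)) ^ (2 d + 1))` bits. -/
theorem result (d : ℕ) (hd : 2 ≤ d) : ∃ C : ℝ, HasLabels (UnitBall d)
    (fun n => C * (n : ℝ) ^ (((d : ℝ) - 1) / (2 * d - 1)) *
      (Real.log (n + 1)) ^ (2 * d + 1)) := by
  obtain ⟨C, -, h⟩ := labels_unitBallA d hd
  exact ⟨C, h⟩

end Pool.Agent.Results.MP_1243c9_co.UnitBallLabels
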